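import Mathlib
import Pool.Agent.Q296.Aloha.Drift

/-!
# MP_b612d4_pr: the doubly randomised ALOHA protocol can be unstable at every input rate

For `h(x) = x^{7/8} - 1` and `ε(x) = x^{-3/8}/2`, which satisfy all the conditions of the problem,
the protocol `A₃(C, h, 1 - ε)` is unstable for every `C > 0`, every input rate `λ > 0` and every
arrival law of mean `λ`: the fluctuations of `S` (of order `h(S)` at each success) dominate its
drift towards `N`, and `W = min(1, A (N^{-1/2} - (S + N)^{-1}))` is a supermartingale.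
-/

namespace Pool.Agent.Results.MP_b612d4_pr.NoiseInstability

open Filter Topology MeasureTheory ProbabilityTheory
open scoped ENNReal
open Pool.Agent.Q296.Aloha

noncomputable section

/-- The class `H` of the problem. -/
structure IsH (h : ℝ → ℝ) : Prop where
  nonneg : ∀ x, 1 ≤ x → 0 ≤ h x
  one : h 1 = 0
  mono : ∀ x y, 1 ≤ x → x ≤ y → h x ≤ h y
  tendsto : Tendsto h atTop atTop
  sub_mono : ∀ x y, 1 ≤ x → x ≤ y → x - h x ≤ y - h y
  sub_tendsto : Tendsto (fun x => x - h x) atTop atTop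
  div_tendsto : Tendsto (fun x => h x / x) atTop (𝓝 0)

/-- The class `E_h` of the problem. -/
structure IsE (h ε : ℝ → ℝ) : Prop where
  pos : ∀ x, 1 ≤ x → 0 < ε x
  le_half : ∀ x, 1 ≤ x → ε x ≤ 1 / 2
  tendsto : Tendsto ε atTop (𝓝 0)
  mul_tendsto : Tendsto (fun x => h x * ε x ^ 2) atTop atTop

/-- The sending probability `p_n`: `1 / S` if `I = 1` and `(1 - ε(S)) / S` if `I = 0` (as an
element of the unit interval; both numbers lie in it when `S ≥ 1`). -/
def sendProb (ε : ℝ → ℝ) (S : ℝ) (I : Bool) : unitInterval :=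
  Set.projIcc 0 1 zero_le_one (if I then 1 / S else (1 - ε S) / S)

/-- The law of the number `B` of messages sent, when each of `N` messages is sent independently
with probability `p`: the binomial law. -/
def sent (N : ℕ) (p : unitInterval) : PMF ℕ := (binomial N p).toPMF

/-- The success indicator `J`: `1` if exactly one message is sent, `0` otherwise. -/
def success (B : ℕ) : ℕ := if B = 1 then 1 else 0

/-- The update of the control parameter `S`. -/
def nextS (C : ℝ) (h : ℝ → ℝ) (S : ℝ) (I : Bool) (J : ℕ) : ℝ :=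
  if J = 0 then S + C else if I then max (S - h S) 1 else S + h S

/-- One step of the Markov chain `(N_n, S_n)` of the protocol `A₃(C, h, 1 - ε)` with arrival law
`ν`: toss a fair coin `I`, send the messages, let `ξ` new messages of law `ν` arrive. -/
def step (C : ℝ) (h ε : ℝ → ℝ) (ν : PMF ℕ) (x : ℕ × ℝ) : PMF (ℕ × ℝ) :=
  (PMF.uniformOfFintype Bool).bind fun I =>
    (sent x.1 (sendProb ε x.2 I)).bind fun B =>
      ν.bind fun ξ => PMF.pure (x.1 - success B + ξ, nextS C h x.2 I (success B))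

/-- The law of `(N_{n+1}, S_{n+1})` when `(N_1, S_1) = x`. -/
def law (C : ℝ) (h ε : ℝ → ℝ) (ν : PMF ℕ) : ℕ → ℕ × ℝ → PMF (ℕ × ℝ)
  | 0, x => PMF.pure x
  | n + 1, x => (law C h ε ν n x).bind (step C h ε ν)

/-- Stability (Harris ergodicity): there is a probability measure `μ` such that for every initial
value `x = (N_1, S_1)` with `S_1 ≥ 1` the law of `(N_n, S_n)` converges to `μ` in total
variation. -/
def Stable (C : ℝ) (h ε : ℝ → ℝ) (ν : PMF ℕ) : Prop :=
  ∃ μ : Measure (ℕ × ℝ), IsProbabilityMeasure μ ∧ ∀ x : ℕ × ℝ, 1 ≤ x.2 → ∀ δ > 0,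
    ∀ᶠ n in atTop, ∀ A : Set (ℕ × ℝ), MeasurableSet A →
      |(law C h ε ν n x).toMeasure.real A - μ.real A| ≤ δ

/-- The mean of the arrival law. -/
def mean (ν : PMF ℕ) : ℝ≥0∞ := ∑' k, ν k * (k : ℝ≥0∞)

/-! ### expectations -/

/-- expectation of a nonnegative function -/
def E {α : Type*} (p : PMF α) (W : α → ℝ≥0∞) : ℝ≥0∞ := ∑' a, p a * W a

lemma E_bind {α β : Type*} (p : PMF α) (f : α → PMF β) (W : β → ℝ≥0∞) :
    E (p.bind f) W = E p (fun a => E (f a) W) := by
  unfold E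
  simp only [PMF.bind_apply]
  simp_rw [← ENNReal.tsum_mul_right, ← ENNReal.tsum_mul_left]
  rw [ENNReal.tsum_comm]
  refine tsum_congr fun a => tsum_congr fun b => ?_
  rw [mul_assoc]

lemma E_pure {α : Type*} (a : α) (W : α → ℝ≥0∞) : E (PMF.pure a) W = W a := by
  unfold E
  rw [tsum_eq_single a]
  · simp
  · intro b hb
    simp [PMF.pure_apply, hb]

lemma E_mono {α : Type*} (p : PMF α) {W V : α → ℝ≥0∞} (h : ∀ a, W a ≤ V a) : E p W ≤ E p V :=
  ENNReal.tsum_le_tsum fun a => by gcongr; exact h a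

lemma E_mono' {α : Type*} (p : PMF α) {W V : α → ℝ≥0∞} (h : ∀ a ∈ p.support, W a ≤ V a) :
    E p W ≤ E p V := by
  refine ENNReal.tsum_le_tsum fun a => ?_
  by_cases ha : a ∈ p.support
  · gcongr
    exact h a ha
  · rw [PMF.mem_support_iff, not_not] at ha
    simp [ha]

lemma E_const {α : Type*} (p : PMF α) (c : ℝ≥0∞) : E p (fun _ => c) = c := by
  unfold E
  rw [ENNReal.tsum_mul_right, p.tsum_coe, one_mul]

lemma E_coin (F : Bool → ℝ≥0∞) (a b : ℝ) (ha : 0 ≤ a) (hb : 0 ≤ b)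
    (h0 : F false ≤ ENNReal.ofReal a) (h1 : F true ≤ ENNReal.ofReal b) :
    E (PMF.uniformOfFintype Bool) F ≤ ENNReal.ofReal ((a + b) / 2) := by
  unfold E
  rw [tsum_fintype, Fintype.sum_bool]
  simp only [PMF.uniformOfFintype_apply, Fintype.card_bool, Nat.cast_ofNat]
  have e : ENNReal.ofReal ((a + b) / 2) = 2⁻¹ * ENNReal.ofReal b + 2⁻¹ * ENNReal.ofReal a := by
    rw [add_comm a b, add_div, ENNReal.ofReal_add (by positivity) (by positivity)]
    rw [ENNReal.ofReal_div_of_pos (by norm_num), ENNReal.ofReal_div_of_pos (by norm_num)]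
    rw [ENNReal.div_eq_inv_mul, ENNReal.div_eq_inv_mul]
    norm_num
  rw [e]
  gcongr

lemma E_sent (N : ℕ) (p : unitInterval) (F : ℕ → ℝ≥0∞) (u v : ℝ) (hu : 0 ≤ u) (hv : 0 ≤ v)
    (h1 : 1 ≤ N → F 1 ≤ ENNReal.ofReal u) (h0 : ∀ B, B ≠ 1 → F B ≤ ENNReal.ofReal v) :
    E (sent N p) F ≤ ENNReal.ofReal (one N p * u + (1 - one N p) * v) := by
  have hp0 : 0 ≤ (p : ℝ) := p.2.1
  have hp1 : (p : ℝ) ≤ 1 := p.2.2
  have hq0 : 0 ≤ one N p := one_nonneg N p hp0 hp1
  have hsingle : sent N p 1 = ENNReal.ofReal (one N p) := by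
    unfold sent one
    rw [Measure.toPMF_apply, binomial_singleton]
    simp
  have hq1 : one N p ≤ 1 := by
    have h2 := (sent N p).coe_le_one 1
    rw [hsingle] at h2
    rw [← ENNReal.ofReal_one] at h2
    exact (ENNReal.ofReal_le_ofReal_iff (by norm_num)).1 h2
  unfold E
  rw [ENNReal.tsum_eq_add_tsum_ite 1]
  have h2 : ∑' B, (if B = 1 then 0 else sent N p B * F B) ≤
      ENNReal.ofReal ((1 - one N p) * v) := by
    have h3 : ∑' B, (if B = 1 then 0 else sent N p B * F B) ≤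
        ∑' B, (if B = 1 then 0 else sent N p B) * ENNReal.ofReal v := by
      refine ENNReal.tsum_le_tsum fun B => ?_
      by_cases hB : B = 1
      · simp [hB]
      · simp only [hB, if_false]
        gcongr
        exact h0 B hB
    refine h3.trans ?_
    rw [ENNReal.tsum_mul_right, ENNReal.ofReal_mul (by linarith)]
    gcongr
    have h4 := (sent N p).tsum_coe
    rw [ENNReal.tsum_eq_add_tsum_ite 1, hsingle] at h4
    have h5 : ENNReal.ofReal (1 - one N p) = 1 - ENNReal.ofReal (one N p) := by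
      rw [ENNReal.ofReal_sub _ hq0, ENNReal.ofReal_one]
    rw [h5]
    refine ENNReal.le_sub_of_add_le_left ENNReal.ofReal_ne_top ?_
    refine le_trans (le_of_eq ?_) h4.le
    congr!
  have h6 : sent N p 1 * F 1 ≤ ENNReal.ofReal (one N p * u) := by
    rw [hsingle, ENNReal.ofReal_mul hq0]
    by_cases hN : 1 ≤ N
    · gcongr
      exact h1 hN
    · have : N = 0 := by omega
      subst this
      simp [one]
  rw [ENNReal.ofReal_add (by positivity) (mul_nonneg (by linarith) hv)]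
  refine le_trans (le_of_eq ?_) (add_le_add h6 h2)
  congr!

/-! ### the supermartingale -/

/-- The supermartingale. -/
def W (A : ℝ) (x : ℕ × ℝ) : ℝ≥0∞ :=
  if x.1 = 0 ∨ x.2 < 1 then 1
  else min 1 (ENNReal.ofReal (A * (1 / √(x.1 : ℝ) - 1 / (x.2 + x.1))))

lemma W_le_one (A : ℝ) (x : ℕ × ℝ) : W A x ≤ 1 := by
  unfold W
  split_ifs
  · exact le_rfl
  · exact min_le_left _ _

/-- averaging over the arrivals -/
lemma E_arrivals (ν : PMF ℕ) (hν : mean ν ≠ ⊤) (A : ℝ) (hA : 0 ≤ A) (M : ℕ) (S : ℝ)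
    (hM : 1 ≤ M) (hS : 1 ≤ S) :
    E ν (fun ξ => W A (M + ξ, S)) ≤
      ENNReal.ofReal (A * bd (1 - (ν 0).toReal) (mean ν).toReal M S) := by
  have hM' : (1 : ℝ) ≤ M := by exact_mod_cast hM
  have h1 := first_nonneg M S hM' hS
  have h2 := second_nonneg M hM'
  have hterm : ∀ ξ : ℕ, W A (M + ξ, S) ≤
      ENNReal.ofReal (A * (1 / √((M : ℝ) + 1) - 1 / (S + M))) +
        ENNReal.ofReal (A * (1 / √(M : ℝ) - 1 / √((M : ℝ) + 1))) * (if ξ = 0 then 1 else 0) +
        ENNReal.ofReal (A / (M : ℝ) ^ 2) * (ξ : ℝ≥0∞) := by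
    intro ξ
    have hreal : A * (1 / √((M : ℝ) + ξ) - 1 / (S + (M + ξ))) ≤
        A * (1 / √((M : ℝ) + 1) - 1 / (S + M)) +
        A * (1 / √(M : ℝ) - 1 / √((M : ℝ) + 1)) * (if ξ = 0 then 1 else 0) +
        A / (M : ℝ) ^ 2 * (ξ : ℝ) := by
      have h3 : 1 / (S + (M : ℝ)) - 1 / (S + (M + ξ)) ≤ ξ / (M : ℝ) ^ 2 := by
        have hd : 0 < S + (M : ℝ) := by linarith
        have hx : (0 : ℝ) ≤ ξ := Nat.cast_nonneg ξ
        have hd' : 0 < S + ((M : ℝ) + ξ) := by linarith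
        have e : 1 / (S + (M : ℝ)) - 1 / (S + (M + ξ)) = ξ / ((S + M) * (S + (M + ξ))) := by
          field_simp
          ring
        rw [e]
        apply div_le_div_of_nonneg_left hx (by positivity)
        rw [sq]
        apply mul_le_mul <;> linarith
      have h4 : 1 / √((M : ℝ) + ξ) ≤ 1 / √((M : ℝ) + 1) +
          (1 / √(M : ℝ) - 1 / √((M : ℝ) + 1)) * (if ξ = 0 then 1 else 0) := by
        by_cases hξ : ξ = 0
        · subst hξ
          simp
        · simp only [hξ, if_false, mul_zero, add_zero]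
          apply one_div_le_one_div_of_le (Real.sqrt_pos.2 (by linarith))
          apply Real.sqrt_le_sqrt
          have : (1 : ℝ) ≤ ξ := by exact_mod_cast Nat.one_le_iff_ne_zero.2 hξ
          linarith
      have h5 : A * (1 / √((M : ℝ) + ξ) - 1 / (S + (M + ξ))) ≤
          A * ((1 / √((M : ℝ) + 1) - 1 / (S + M)) +
            (1 / √(M : ℝ) - 1 / √((M : ℝ) + 1)) * (if ξ = 0 then 1 else 0) +
            ξ / (M : ℝ) ^ 2) := by
        apply mul_le_mul_of_nonneg_left _ hA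
        linarith
      refine h5.trans (le_of_eq ?_)
      ring
    unfold W
    have hn0 : ¬ ((M + ξ = 0) ∨ S < 1) := by
      push Not
      exact ⟨by omega, hS⟩
    simp only [hn0, if_false]
    refine (min_le_right _ _).trans ?_
    push_cast
    refine (ENNReal.ofReal_le_ofReal hreal).trans ?_
    have hx : (0 : ℝ) ≤ ξ := Nat.cast_nonneg ξ
    have p1 := mul_nonneg hA h1
    have p2 := mul_nonneg hA h2
    have hite : (0 : ℝ) ≤ (if ξ = 0 then 1 else 0) := by split_ifs <;> norm_num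
    rw [ENNReal.ofReal_add (by positivity) (by positivity), ENNReal.ofReal_add p1 (by positivity),
      ENNReal.ofReal_mul p2, ENNReal.ofReal_mul (p := A / (M : ℝ) ^ 2) (by positivity),
      ENNReal.ofReal_natCast]
    gcongr
    split_ifs <;> simp
  refine (E_mono ν hterm).trans ?_
  unfold E
  simp_rw [mul_add]
  rw [ENNReal.tsum_add, ENNReal.tsum_add]
  have e1 : ∑' a, ν a * ENNReal.ofReal (A * (1 / √((M : ℝ) + 1) - 1 / (S + M))) =
      ENNReal.ofReal (A * (1 / √((M : ℝ) + 1) - 1 / (S + M))) := by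
    rw [ENNReal.tsum_mul_right, ν.tsum_coe, one_mul]
  have e2 : ∑' a, ν a * (ENNReal.ofReal (A * (1 / √(M : ℝ) - 1 / √((M : ℝ) + 1))) *
      (if a = 0 then 1 else 0)) =
      ENNReal.ofReal (A * (1 / √(M : ℝ) - 1 / √((M : ℝ) + 1))) * ν 0 := by
    rw [tsum_eq_single 0]
    · simp [mul_comm]
    · intro b hb
      simp [hb]
  have e3 : ∑' a, ν a * (ENNReal.ofReal (A / (M : ℝ) ^ 2) * (a : ℝ≥0∞)) =
      ENNReal.ofReal (A / (M : ℝ) ^ 2) * mean ν := by
    unfold mean
    rw [← ENNReal.tsum_mul_left]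
    refine tsum_congr fun a => ?_
    ring
  rw [e1, e2, e3]
  have hν0 : ν 0 = ENNReal.ofReal (ν 0).toReal := (ENNReal.ofReal_toReal (ν.apply_ne_top 0)).symm
  have hm0 : mean ν = ENNReal.ofReal (mean ν).toReal := (ENNReal.ofReal_toReal hν).symm
  have p1 := mul_nonneg hA h1
  have p2 := mul_nonneg hA h2
  have p3 : 0 ≤ (ν 0).toReal := ENNReal.toReal_nonneg
  have p4 : 0 ≤ (mean ν).toReal := ENNReal.toReal_nonneg
  conv_lhs => rw [hν0, hm0]
  rw [← ENNReal.ofReal_mul p2, ← ENNReal.ofReal_mul (p := A / (M : ℝ) ^ 2) (by positivity),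
    ← ENNReal.ofReal_add p1 (by positivity), ← ENNReal.ofReal_add (by positivity) (by positivity)]
  apply ENNReal.ofReal_le_ofReal
  unfold bd
  apply le_of_eq
  ring


/-! ### the functions `h` and `ε` -/

/-- `h(x) = x^{7/8} - 1` -/
def h₀ (x : ℝ) : ℝ := x ^ (7 / 8 : ℝ) - 1

/-- `ε(x) = x^{-3/8} / 2` -/
def ε₀ (x : ℝ) : ℝ := x ^ (-(3 / 8) : ℝ) / 2

lemma root_pow (x : ℝ) (hx : 0 ≤ x) : (x ^ (1 / 8 : ℝ)) ^ 8 = x := by
  rw [← Real.rpow_natCast, ← Real.rpow_mul hx]
  norm_num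

lemma root_pow7 (x : ℝ) (hx : 0 ≤ x) : x ^ (7 / 8 : ℝ) = (x ^ (1 / 8 : ℝ)) ^ 7 := by
  rw [← Real.rpow_natCast, ← Real.rpow_mul hx]
  norm_num

lemma root_pow3 (x : ℝ) (hx : 0 ≤ x) :
    x ^ (-(3 / 8) : ℝ) = 1 / (x ^ (1 / 8 : ℝ)) ^ 3 := by
  rw [Real.rpow_neg hx, ← Real.rpow_natCast, ← Real.rpow_mul hx]
  norm_num

lemma one_le_root (x : ℝ) (hx : 1 ≤ x) : 1 ≤ x ^ (1 / 8 : ℝ) :=
  Real.one_le_rpow hx (by norm_num)

lemma isH₀ : IsH h₀ where
  nonneg x hx := by
    unfold h₀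
    have := Real.one_le_rpow hx (show (0 : ℝ) ≤ 7 / 8 by norm_num)
    linarith
  one := by simp [h₀]
  mono x y hx hxy := by
    unfold h₀
    have := Real.rpow_le_rpow (by linarith) hxy (show (0 : ℝ) ≤ 7 / 8 by norm_num)
    linarith
  tendsto := by
    unfold h₀
    exact tendsto_atTop_add_const_right _ _ (tendsto_rpow_atTop (by norm_num))
  sub_mono x y hx hxy := by
    unfold h₀
    have hy : 1 ≤ y := hx.trans hxy
    rw [root_pow7 x (by linarith), root_pow7 y (by linarith)]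
    have h1 := root_pow x (by linarith)
    have h2 := root_pow y (by linarith)
    have h3 := one_le_root x hx
    have h4 : x ^ (1 / 8 : ℝ) ≤ y ^ (1 / 8 : ℝ) :=
      Real.rpow_le_rpow (by linarith) hxy (by norm_num)
    set a := x ^ (1 / 8 : ℝ)
    set b := y ^ (1 / 8 : ℝ)
    have h5 : a ^ 7 * (a - 1) ≤ b ^ 7 * (b - 1) :=
      mul_le_mul (pow_le_pow_left₀ (by linarith) h4 7) (by linarith) (by linarith) (by positivity)
    nlinarith
  sub_tendsto := by
    unfold h₀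
    have h1 : Tendsto (fun x : ℝ => x ^ (7 / 8 : ℝ) * (x ^ (1 / 8 : ℝ) - 1) + 1) atTop atTop := by
      apply tendsto_atTop_add_const_right
      exact (tendsto_rpow_atTop (by norm_num)).atTop_mul_atTop₀
        (tendsto_atTop_add_const_right _ _ (tendsto_rpow_atTop (by norm_num)))
    refine h1.congr' ?_
    filter_upwards [eventually_gt_atTop 0] with x hx
    rw [mul_sub, ← Real.rpow_add hx]
    norm_num
    ring
  div_tendsto := by
    have h1 : Tendsto (fun x : ℝ => x ^ (-(1 / 8) : ℝ) - x ^ (-1 : ℝ)) atTop (𝓝 (0 - 0)) :=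
      (tendsto_rpow_neg_atTop (by norm_num)).sub (tendsto_rpow_neg_atTop (by norm_num))
    rw [sub_zero] at h1
    refine h1.congr' ?_
    filter_upwards [eventually_gt_atTop 0] with x hx
    unfold h₀
    rw [sub_div, Real.rpow_neg_one, one_div x]
    congr 1
    rw [eq_div_iff hx.ne']
    nth_rewrite 2 [← Real.rpow_one x]
    rw [← Real.rpow_add hx]
    norm_num

lemma isE₀ : IsE h₀ ε₀ where
  pos x hx := by
    unfold ε₀
    have := Real.rpow_pos_of_pos (show 0 < x by linarith) (-(3 / 8) : ℝ)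
    positivity
  le_half x hx := by
    unfold ε₀
    have := Real.rpow_le_one_of_one_le_of_nonpos hx (show (-(3 / 8) : ℝ) ≤ 0 by norm_num)
    linarith
  tendsto := by
    unfold ε₀
    have h1 : Tendsto (fun x : ℝ => x ^ (-(3 / 8) : ℝ) / 2) atTop (𝓝 (0 / 2)) :=
      (tendsto_rpow_neg_atTop (by norm_num)).div_const 2
    rwa [zero_div] at h1
  mul_tendsto := by
    have h1 : Tendsto (fun x : ℝ => (x ^ (1 / 8 : ℝ) - x ^ (-(3 / 4) : ℝ)) / 4) atTop atTop := by
      apply Tendsto.atTop_div_const (by norm_num)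
      have h2 : Tendsto (fun x : ℝ => -x ^ (-(3 / 4) : ℝ)) atTop (𝓝 (-0)) :=
        (tendsto_rpow_neg_atTop (by norm_num)).neg
      exact (tendsto_rpow_atTop (by norm_num)).atTop_add h2
    refine h1.congr' ?_
    filter_upwards [eventually_gt_atTop 0] with x hx
    unfold h₀ ε₀
    rw [div_pow, ← Real.rpow_natCast (x ^ (-(3 / 8) : ℝ)) 2, ← Real.rpow_mul hx.le, sub_mul,
      ← mul_div_assoc, ← Real.rpow_add hx]
    norm_num
    ring

/-! ### the supermartingale property -/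

lemma E_step (C : ℝ) (h ε : ℝ → ℝ) (ν : PMF ℕ) (x : ℕ × ℝ) (V : ℕ × ℝ → ℝ≥0∞) :
    E (step C h ε ν x) V = E (PMF.uniformOfFintype Bool) fun I =>
      E (sent x.1 (sendProb ε x.2 I)) fun B => E ν fun ξ =>
        V (x.1 - success B + ξ, nextS C h x.2 I (success B)) := by
  unfold step
  simp only [E_bind, E_pure]

lemma step_le (C : ℝ) (hC : 0 < C) (ν : PMF ℕ) (hν : mean ν ≠ ⊤) (hν0 : mean ν ≠ 0) :
    ∃ A : ℝ, 1 ≤ A ∧ ∀ x : ℕ × ℝ, E (step C h₀ ε₀ ν x) (W A) ≤ W A x := by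
  set π : ℝ := 1 - (ν 0).toReal with hπ
  have hν0le : (ν 0).toReal ≤ 1 := by
    have := ν.coe_le_one 0
    exact ENNReal.toReal_le_of_le_ofReal (by norm_num) (by simpa using this)
  have hπ1 : π ≤ 1 := by
    have : 0 ≤ (ν 0).toReal := ENNReal.toReal_nonneg
    linarith
  have hπ0 : 0 < π := by
    rw [hπ, sub_pos]
    refine lt_of_le_of_ne hν0le ?_
    intro h1
    apply hν0
    have h2 : ν 0 = 1 := by
      rw [← ENNReal.ofReal_toReal (ν.apply_ne_top 0), h1, ENNReal.ofReal_one]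
    have h3 := (ν.apply_eq_one_iff 0).1 h2
    unfold mean
    rw [ENNReal.tsum_eq_zero]
    intro k
    by_cases hk : k = 0
    · simp [hk]
    · have : k ∉ ν.support := by rw [h3]; simpa using hk
      rw [PMF.mem_support_iff, not_not] at this
      simp [this]
  set l : ℝ := (mean ν).toReal with hl
  have hl0 : 0 ≤ l := ENNReal.toReal_nonneg
  obtain ⟨w0, hw0⟩ := eventually_atTop.1 (drift C l π hC hl0 hπ0 hπ1)
  set w1 := max w0 2 with hw1
  refine ⟨2 * w1 ^ 4, ?_, ?_⟩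
  · have h1 : (2 : ℝ) ≤ w1 := le_max_right _ _
    have h2 : (2 : ℝ) ^ 4 ≤ w1 ^ 4 := pow_le_pow_left₀ (by norm_num) h1 4
    linarith
  rintro ⟨N, S⟩
  set A := 2 * w1 ^ 4 with hA
  have hw12 : (2 : ℝ) ≤ w1 := le_max_right _ _
  have hA0 : 0 < A := by positivity
  have hle1 : E (step C h₀ ε₀ ν (N, S)) (W A) ≤ 1 := by
    calc E (step C h₀ ε₀ ν (N, S)) (W A) ≤ E (step C h₀ ε₀ ν (N, S)) (fun _ => 1) :=
          E_mono _ (W_le_one A)
      _ = 1 := E_const _ _
  by_cases hc : N = 0 ∨ S < 1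
  · have : W A (N, S) = 1 := by unfold W; simp [hc]
    rw [this]
    exact hle1
  have hWx : W A (N, S) = min 1 (ENNReal.ofReal (A * (1 / √(N : ℝ) - 1 / (S + N)))) := by
    unfold W
    simp only [hc, if_false]
  rw [hWx]
  refine le_min hle1 ?_
  push Not at hc
  obtain ⟨hN0, hS1⟩ := hc
  have hN1 : 1 ≤ N := Nat.one_le_iff_ne_zero.2 hN0
  have hN1' : (1 : ℝ) ≤ N := by exact_mod_cast hN1
  by_cases hbig : 1 ≤ A * (1 / √(N : ℝ) - 1 / (S + N))
  · refine hle1.trans ?_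
    rw [← ENNReal.ofReal_one]
    exact ENNReal.ofReal_le_ofReal hbig
  push Not at hbig
  have hsqrt : w1 ^ 4 < √(N : ℝ) := by
    have h1 := half_le N S hN1' hS1
    have h2 : 0 < √(N : ℝ) := Real.sqrt_pos.2 (by linarith)
    have h3 : A * (1 / (2 * √(N : ℝ))) < 1 := lt_of_le_of_lt (by gcongr) hbig
    rw [mul_one_div, div_lt_one (by positivity)] at h3
    linarith
  set w := (N : ℝ) ^ (1 / 8 : ℝ) with hw
  have hwN : (N : ℝ) = w ^ 8 := (root_pow N (by linarith)).symm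
  have hww : w1 ≤ w := by
    have hw00 : 0 ≤ w := Real.rpow_nonneg (by linarith) _
    have h1 : √(N : ℝ) = w ^ 4 := by
      rw [hwN, show w ^ 8 = (w ^ 4) ^ 2 by ring, Real.sqrt_sq (by positivity)]
    rw [h1] at hsqrt
    exact (lt_of_pow_lt_pow_left₀ 4 hw00 hsqrt).le
  have hN2 : 2 ≤ N := by
    have : (2 : ℝ) ≤ N := by
      rw [hwN]
      calc (2 : ℝ) ≤ 2 ^ 8 := by norm_num
        _ ≤ w ^ 8 := pow_le_pow_left₀ (by norm_num) (hw12.trans hww) 8
    exact_mod_cast this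
  set y := S ^ (1 / 8 : ℝ) with hy
  have hyS : y ^ 8 = S := root_pow S (by linarith)
  have hy1 : 1 ≤ y := one_le_root S hS1
  have hh : h₀ S = y ^ 7 - 1 := by unfold h₀; rw [root_pow7 S (by linarith)]
  have hε : ε₀ S = 1 / (2 * y ^ 3) := by
    unfold ε₀
    rw [root_pow3 S (by linarith), ← hy]
    field_simp
  have hd := hw0 w ((le_max_left _ _).trans hww) y hy1 N hwN _ _ rfl rfl
  rw [hyS] at hd
  rw [E_step]
  have hy3 : 1 ≤ y ^ 3 := one_le_pow₀ hy1
  have hy7 : 1 ≤ y ^ 7 := one_le_pow₀ hy1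
  have hy78 : y ^ 7 ≤ y ^ 8 := pow_le_pow_right₀ hy1 (by norm_num)
  have hε1 : 0 < 1 / (2 * y ^ 3) := by positivity
  have hε2 : 1 / (2 * y ^ 3) ≤ 1 / 2 := by
    apply one_div_le_one_div_of_le (by norm_num)
    linarith
  have hp0 : ((sendProb ε₀ S false : unitInterval) : ℝ) = (1 - 1 / (2 * y ^ 3)) / S := by
    unfold sendProb
    rw [Set.coe_projIcc]
    simp only [Bool.false_eq_true, if_false, hε]
    rw [min_eq_right, max_eq_right]
    · apply div_nonneg <;> linarith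
    · rw [div_le_one (by linarith)]
      linarith
  have hp1 : ((sendProb ε₀ S true : unitInterval) : ℝ) = 1 / S := by
    unfold sendProb
    rw [Set.coe_projIcc]
    simp only [if_true]
    rw [min_eq_right, max_eq_right]
    · positivity
    · rw [div_le_one (by linarith)]
      exact hS1
  set q0 := one N ((1 - 1 / (2 * y ^ 3)) / S) with hq0
  set q1 := one N (1 / S) with hq1
  have hcast : ((N - 1 : ℕ) : ℝ) = (N : ℝ) - 1 := by
    rw [Nat.cast_sub hN1]; simp
  -- the three pieces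
  have hup : ∀ S' : ℝ, 1 ≤ S' → ∀ B, B ≠ 1 →
      E ν (fun ξ => W A (N - success B + ξ, S')) ≤ ENNReal.ofReal (A * bd π l N S') := by
    intro S' hS' B hB
    have := E_arrivals ν hν A hA0.le N S' hN1 hS'
    simpa [success, hB] using this
  have hdown : ∀ S' : ℝ, 1 ≤ S' →
      E ν (fun ξ => W A (N - success 1 + ξ, S')) ≤ ENNReal.ofReal (A * bd π l (N - 1) S') := by
    intro S' hS'
    have := E_arrivals ν hν A hA0.le (N - 1) S' (by omega) hS'
    rw [hcast] at this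
    simpa [success] using this
  have hsend : ∀ I : Bool, ∀ Sd : ℝ, 1 ≤ Sd → nextS C h₀ S I 1 = Sd →
      E (sent N (sendProb ε₀ S I)) (fun B => E ν fun ξ =>
        W A (N - success B + ξ, nextS C h₀ S I (success B))) ≤
      ENNReal.ofReal (one N (sendProb ε₀ S I) * (A * bd π l (N - 1) Sd) +
        (1 - one N (sendProb ε₀ S I)) * (A * bd π l N (S + C))) := by
    intro I Sd hSd hns
    apply E_sent
    · apply mul_nonneg hA0.le
      apply bd_nonneg _ _ _ _ hπ1 hl0 _ hSd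
      have : (2 : ℝ) ≤ N := by exact_mod_cast hN2
      linarith
    · apply mul_nonneg hA0.le
      exact bd_nonneg _ _ _ _ hπ1 hl0 hN1' (by linarith)
    · intro _
      have h1 : success 1 = 1 := by simp [success]
      have h2 := hdown Sd hSd
      rw [h1] at h2 ⊢
      rw [hns]
      exact h2
    · intro B hB
      have h1 : success B = 0 := by simp [success, hB]
      have h2 := hup (S + C) (by linarith) B hB
      rw [h1] at h2 ⊢
      simpa [nextS] using h2
  have hs0 := hsend false (S + (y ^ 7 - 1)) (by linarith) (by simp [nextS, hh])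
  have hs1 := hsend true (S - (y ^ 7 - 1)) (by rw [← hyS]; linarith) (by
    simp only [nextS, hh, if_true, one_ne_zero, if_false]
    apply max_eq_left
    rw [← hyS]
    linarith)
  rw [hp0, ← hq0] at hs0
  rw [hp1, ← hq1] at hs1
  have hb1 : 0 ≤ bd π l (N : ℝ) (S + C) := bd_nonneg _ _ _ _ hπ1 hl0 hN1' (by linarith)
  have hN2' : (2 : ℝ) ≤ N := by exact_mod_cast hN2
  have hb20 : 0 ≤ bd π l ((N : ℝ) - 1) (S + (y ^ 7 - 1)) :=
    bd_nonneg _ _ _ _ hπ1 hl0 (by linarith) (by linarith)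
  have hb21 : 0 ≤ bd π l ((N : ℝ) - 1) (S - (y ^ 7 - 1)) :=
    bd_nonneg _ _ _ _ hπ1 hl0 (by linarith) (by rw [← hyS]; linarith)
  have hpp0 : 0 ≤ (1 - 1 / (2 * y ^ 3)) / S := by apply div_nonneg <;> linarith
  have hpp0' : (1 - 1 / (2 * y ^ 3)) / S ≤ 1 := by
    rw [div_le_one (by linarith)]
    linarith
  have hpp1 : 0 ≤ 1 / S := by positivity
  have hpp1' : 1 / S ≤ 1 := by
    rw [div_le_one (by linarith)]
    exact hS1
  have hq0n : 0 ≤ q0 := one_nonneg _ _ hpp0 hpp0'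
  have hq1n : 0 ≤ q1 := one_nonneg _ _ hpp1 hpp1'
  have hq0l : 0 ≤ 1 - q0 := sub_nonneg.2 (one_le_one _ _ hpp0 hpp0')
  have hq1l : 0 ≤ 1 - q1 := sub_nonneg.2 (one_le_one _ _ hpp1 hpp1')
  refine (E_coin _ _ _ (by positivity) (by positivity) hs0 hs1).trans ?_
  apply ENNReal.ofReal_le_ofReal
  calc _ = A * (((q0 * bd π l (N - 1) (S + (y ^ 7 - 1)) + (1 - q0) * bd π l N (S + C)) +
        (q1 * bd π l (N - 1) (S - (y ^ 7 - 1)) + (1 - q1) * bd π l N (S + C))) / 2) := by ring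
    _ ≤ A * (1 / √(N : ℝ) - 1 / (S + N)) := by gcongr

lemma law_le (C : ℝ) (ν : PMF ℕ) (A : ℝ)
    (hA : ∀ x : ℕ × ℝ, E (step C h₀ ε₀ ν x) (W A) ≤ W A x) (n : ℕ) (x : ℕ × ℝ) :
    E (law C h₀ ε₀ ν n x) (W A) ≤ W A x := by
  induction n with
  | zero =>
    rw [law, E_pure]
  | succ n ih =>
    rw [law, E_bind]
    exact (E_mono _ hA).trans ih

/-- The number of messages stays large: from `N_1` messages, the probability that there are at
most `K` messages is at every time at most `(A + 2 √K) / √N_1`. -/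
lemma prob_small (C : ℝ) (ν : PMF ℕ) (A : ℝ) (hA1 : 1 ≤ A)
    (hA : ∀ x : ℕ × ℝ, E (step C h₀ ε₀ ν x) (W A) ≤ W A x) (n : ℕ) (x : ℕ × ℝ)
    (hx1 : 1 ≤ x.1) (hx2 : 1 ≤ x.2) (K : ℕ) (hK : 1 ≤ K) :
    (law C h₀ ε₀ ν n x).toMeasure.real {y | y.1 ≤ K} ≤ (A + 2 * √(K : ℝ)) / √(x.1 : ℝ) := by
  have hK' : (1 : ℝ) ≤ K := by exact_mod_cast hK
  have hsK : 0 < √(K : ℝ) := Real.sqrt_pos.2 (by linarith)
  have hx1' : (1 : ℝ) ≤ x.1 := by exact_mod_cast hx1
  have hsx : 0 < √(x.1 : ℝ) := Real.sqrt_pos.2 (by linarith)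
  set c := min 1 (A / (2 * √(K : ℝ))) with hc
  have hc0 : 0 < c := by
    apply lt_min one_pos
    positivity
  have hWlow : ∀ y : ℕ × ℝ, y.1 ≤ K → ENNReal.ofReal c ≤ W A y := by
    rintro ⟨M, S⟩ hM
    unfold W
    split_ifs with hcase
    · rw [← ENNReal.ofReal_one]
      exact ENNReal.ofReal_le_ofReal (min_le_left _ _)
    · push Not at hcase
      simp only at hcase hM ⊢
      rw [← ENNReal.ofReal_one, ← ENNReal.ofReal_min]
      apply ENNReal.ofReal_le_ofReal
      apply min_le_min le_rfl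
      have hM1 : (1 : ℝ) ≤ M := by exact_mod_cast Nat.one_le_iff_ne_zero.2 hcase.1
      have h1 := half_le M S hM1 hcase.2
      have h2 : 1 / (2 * √(K : ℝ)) ≤ 1 / (2 * √(M : ℝ)) := by
        have : 0 < √(M : ℝ) := Real.sqrt_pos.2 (by linarith)
        have h3 : √(M : ℝ) ≤ √(K : ℝ) := Real.sqrt_le_sqrt (by exact_mod_cast hM)
        apply one_div_le_one_div_of_le <;> linarith
      calc A / (2 * √(K : ℝ)) = A * (1 / (2 * √(K : ℝ))) := by ring
        _ ≤ A * (1 / √(M : ℝ) - 1 / (S + M)) := by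
            apply mul_le_mul_of_nonneg_left _ (by linarith)
            linarith
  have hms : MeasurableSet {y : ℕ × ℝ | y.1 ≤ K} := measurable_fst (measurableSet_Iic (a := K))
  have h1 : ENNReal.ofReal c * (law C h₀ ε₀ ν n x).toMeasure {y | y.1 ≤ K} ≤ W A x := by
    refine le_trans ?_ (law_le C ν A hA n x)
    rw [PMF.toMeasure_apply _ hms]
    unfold E
    rw [← ENNReal.tsum_mul_left]
    refine ENNReal.tsum_le_tsum fun y => ?_
    by_cases hy : y.1 ≤ K
    · rw [Set.indicator_of_mem (show y ∈ {y : ℕ × ℝ | y.1 ≤ K} from hy), mul_comm]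
      gcongr
      exact hWlow y hy
    · rw [Set.indicator_of_notMem (show y ∉ {y : ℕ × ℝ | y.1 ≤ K} from hy)]
      simp
  have h2 : W A x ≤ ENNReal.ofReal (A / √(x.1 : ℝ)) := by
    unfold W
    have hcase : ¬ (x.1 = 0 ∨ x.2 < 1) := by
      push Not
      exact ⟨by omega, hx2⟩
    simp only [hcase, if_false]
    refine (min_le_right _ _).trans (ENNReal.ofReal_le_ofReal ?_)
    have h3 : 0 < 1 / (x.2 + x.1) := by positivity
    calc A * (1 / √(x.1 : ℝ) - 1 / (x.2 + x.1)) ≤ A * (1 / √(x.1 : ℝ)) := by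
          apply mul_le_mul_of_nonneg_left _ (by linarith)
          linarith
      _ = A / √(x.1 : ℝ) := by ring
  have h3 := ENNReal.toReal_mono ENNReal.ofReal_ne_top (h1.trans h2)
  rw [ENNReal.toReal_mul, ENNReal.toReal_ofReal hc0.le, ENNReal.toReal_ofReal (by positivity)] at h3
  have h4 : (law C h₀ ε₀ ν n x).toMeasure.real {y | y.1 ≤ K} ≤ A / √(x.1 : ℝ) / c := by
    rw [le_div_iff₀ hc0, mul_comm]
    exact h3
  refine h4.trans ?_
  rw [div_le_iff₀ hc0, div_mul_eq_mul_div]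
  apply div_le_div_of_nonneg_right _ hsx.le
  rcases min_choice (1 : ℝ) (A / (2 * √(K : ℝ))) with h5 | h5
  · rw [hc, h5]
    linarith
  · rw [hc, h5]
    have h6 : (A + 2 * √(K : ℝ)) * (A / (2 * √(K : ℝ))) =
        A * (A / (2 * √(K : ℝ))) + A := by
      field_simp
    rw [h6]
    have : 0 ≤ A * (A / (2 * √(K : ℝ))) := by positivity
    linarith
lemma not_stable (C : ℝ) (hC : 0 < C) (ν : PMF ℕ) (hν : mean ν ≠ ⊤) (hν0 : mean ν ≠ 0) :
    ¬ Stable C h₀ ε₀ ν := by
  rintro ⟨μ, hμ, hst⟩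
  obtain ⟨A, hA1, hA⟩ := step_le C hC ν hν hν0
  have hmono : Monotone (fun K : ℕ => {y : ℕ × ℝ | y.1 ≤ K}) := by
    intro a b hab y hy
    exact le_trans (show y.1 ≤ a from hy) hab
  have hU : (⋃ K : ℕ, {y : ℕ × ℝ | y.1 ≤ K}) = Set.univ := by
    ext y
    simp only [Set.mem_iUnion, Set.mem_univ, iff_true]
    exact ⟨y.1, le_refl y.1⟩
  have ht := tendsto_measure_iUnion_atTop (μ := μ) hmono
  rw [hU, measure_univ] at ht
  have ht' := (ENNReal.tendsto_toReal ENNReal.one_ne_top).comp ht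
  have hev := ht'.eventually (lt_mem_nhds (show (3 / 4 : ℝ) < (1 : ℝ≥0∞).toReal by norm_num))
  obtain ⟨K, hK1, hK⟩ := ((eventually_ge_atTop 1).and hev).exists
  have hK' : (3 / 4 : ℝ) < μ.real {y : ℕ × ℝ | y.1 ≤ K} := hK
  obtain ⟨N, hN⟩ := exists_nat_ge ((4 * (A + 2 * √(K : ℝ))) ^ 2)
  have hpos : 0 < 4 * (A + 2 * √(K : ℝ)) := by positivity
  have hN1 : 1 ≤ N := by
    have : (0 : ℝ) < N := lt_of_lt_of_le (by positivity) hN
    exact_mod_cast this
  have hsq : 4 * (A + 2 * √(K : ℝ)) ≤ √(N : ℝ) := Real.le_sqrt_of_sq_le hN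
  have hsm : (A + 2 * √(K : ℝ)) / √(N : ℝ) ≤ 1 / 4 := by
    rw [div_le_div_iff₀ (by linarith) (by norm_num)]
    linarith
  have hms : MeasurableSet {y : ℕ × ℝ | y.1 ≤ K} := measurable_fst (measurableSet_Iic (a := K))
  obtain ⟨n, hn⟩ := (hst (N, 1) le_rfl (1 / 4) (by norm_num)).exists
  have h1 := hn _ hms
  have h2 := prob_small C ν A hA1 hA n (N, 1) hN1 le_rfl K hK1
  have h3 := (abs_le.1 h1).1
  simp only at h2
  linarith

/-- There are arrival laws of every mean in `(0, e⁻¹)`. -/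
lemma exists_mean (l : ℝ) (h0 : 0 < l) (h1 : l < Real.exp (-1)) :
    ∃ ν : PMF ℕ, mean ν = ENNReal.ofReal l := by
  have h2 : Real.exp (-1) ≤ 1 := Real.exp_le_one_iff.2 (by norm_num)
  refine ⟨sent 1 ⟨l, h0.le, by linarith⟩, ?_⟩
  unfold mean
  rw [tsum_eq_single 1]
  · unfold sent
    rw [Measure.toPMF_apply, binomial_singleton]
    simp
  · intro b hb
    by_cases hb0 : b = 0
    · simp [hb0]
    · unfold sent
      rw [Measure.toPMF_apply, binomial_singleton, Nat.choose_eq_zero_of_lt (by omega)]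
      simp

/-- **The answer to the question is negative.**  The functions `h₀(x) = x^{7/8} - 1` and
`ε₀(x) = x^{-3/8}/2` satisfy all the conditions of the problem, but for every `C > 0` and every
arrival law `ν` of finite positive mean (in particular for every input rate `λ < e⁻¹`) the protocol
`A₃(C, h₀, 1 - ε₀)` is not stable.  Moreover the instability is a real one: started with `N_1`
messages, the probability that at most `K` messages are present is at every time at most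
`(A + 2 √K) / √N_1`. -/
theorem result :
    IsH h₀ ∧ IsE h₀ ε₀ ∧
    (∀ C : ℝ, 0 < C → ∀ ν : PMF ℕ, 0 < mean ν → mean ν < ⊤ →
      ¬ Stable C h₀ ε₀ ν ∧
      ∃ A : ℝ, 0 < A ∧ ∀ x : ℕ × ℝ, 1 ≤ x.1 → 1 ≤ x.2 → ∀ n K : ℕ, 1 ≤ K →
        (law C h₀ ε₀ ν n x).toMeasure.real {y | y.1 ≤ K} ≤
          (A + 2 * √(K : ℝ)) / √(x.1 : ℝ)) ∧
    ∀ l : ℝ, 0 < l → l < Real.exp (-1) → ∃ ν : PMF ℕ, mean ν = ENNReal.ofReal l := by
  refine ⟨isH₀, isE₀, ?_, exists_mean⟩
  intro C hC ν hν0 hν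
  refine ⟨not_stable C hC ν hν.ne hν0.ne', ?_⟩
  obtain ⟨A, hA1, hA⟩ := step_le C hC ν hν.ne hν0.ne'
  exact ⟨A, by linarith, fun x hx1 hx2 n K hK => prob_small C ν A hA1 hA n x hx1 hx2 K hK⟩

end

end Pool.Agent.Results.MP_b612d4_pr.NoiseInstability
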